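import Pool.Agent.H82.EUC.Stmts5

/-!
# Row GDE of the board `euc`
-/

set_option autoImplicit false

namespace Pool.EUC

theorem gde_abs (a b c d : ℤ) (h : |a - b| < |c - d|) :
    |(a : ℝ) - (b : ℝ)| < |(c : ℝ) - (d : ℝ)| := by
  have h1 : ((|a - b| : ℤ) : ℝ) < ((|c - d| : ℤ) : ℝ) := by exact_mod_cast h
  rw [Int.cast_abs, Int.cast_abs, Int.cast_sub, Int.cast_sub] at h1
  exact h1

theorem gde_thm : GDE_S := by
  intro V E d hd b c hR
  obtain ⟨v, e, rfl, rfl, h1, h2, h3, h4⟩ := hR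
  refine ⟨Sum.inr_ne_inl, false, false, ?_, ?_⟩
  · refine gde_abs _ _ _ _ ?_
    show |(4 * (d.XR e + 30) - 1) - 4 * d.X v| <
      |(4 * (d.XR e + 30) - 1) - 4 * (2 * d.XR e - d.XL e + 90)|
    rw [abs_of_nonneg (by omega), abs_of_neg (by omega)]
    omega
  · refine gde_abs _ _ _ _ ?_
    show |(4 * (d.H v + 30) - 1) - 4 * d.Y e| <
      |(4 * (d.H v + 30) - 1) - 4 * (2 * d.H v - d.L v + 90)|
    rw [abs_of_nonneg (by omega), abs_of_neg (by omega)]
    omega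

end Pool.EUC
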